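import Pool.Agent.TF.Stmts

/-! Squad TF, rows GIB, GIC, UNI -/

set_option autoImplicit false

namespace Pool.Agent.TF.H27

open Pool.Agent.TF

section basics
variable {Ω S T : Type} [Fintype Ω] (P : Law Ω)

theorem q_nonneg (X : Ω → S) (s : S) : 0 ≤ P.q X s := by
  classical
  unfold Law.q
  apply Finset.sum_nonneg
  intro ω _
  split_ifs
  · exact P.nn ω
  · exact le_rfl

theorem p_le_q (X : Ω → S) (ω : Ω) : P.p ω ≤ P.q X (X ω) := by
  classical
  unfold Law.q
  refine le_trans ?_ (Finset.single_le_sum (f := fun ω' => if X ω' = X ω then P.p ω' else 0)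
    (fun ω' _ => ?_) (Finset.mem_univ ω))
  · rw [if_pos rfl]
  · show (0 : ℝ) ≤ if X ω' = X ω then P.p ω' else 0
    split_ifs
    · exact P.nn ω'
    · exact le_rfl

theorem q_pos (X : Ω → S) {ω : Ω} (h : P.p ω ≠ 0) : 0 < P.q X (X ω) :=
  lt_of_lt_of_le (lt_of_le_of_ne (P.nn ω) (Ne.symm h)) (p_le_q P X ω)

/-- grouping by the values of `X` -/
theorem sum_group (X : Ω → S) (T : Finset S) (f : S → ℝ) (hf : ∀ s ∈ T, 0 ≤ f s)
    (hX : ∀ ω, P.p ω ≠ 0 → X ω ∈ T) :
    ∑ ω, P.p ω * (f (X ω) / P.q X (X ω)) ≤ ∑ s ∈ T, f s := by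
  classical
  have h1 : ∑ ω, P.p ω * (f (X ω) / P.q X (X ω)) =
      ∑ ω, ∑ s ∈ T, if X ω = s then P.p ω * (f s / P.q X s) else 0 := by
    refine Finset.sum_congr rfl fun ω _ => ?_
    rw [Finset.sum_ite_eq]
    split_ifs with h
    · rfl
    · have h2 : P.p ω = 0 := by
        by_contra h3
        exact h (hX ω h3)
      rw [h2, zero_mul]
  rw [h1, Finset.sum_comm]
  refine Finset.sum_le_sum fun s hs => ?_
  have h2 : ∑ ω, (if X ω = s then P.p ω * (f s / P.q X s) else 0) =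
      P.q X s * (f s / P.q X s) := by
    unfold Law.q
    rw [Finset.sum_mul]
    refine Finset.sum_congr rfl fun ω _ => ?_
    rw [ite_mul, zero_mul]
  rw [h2]
  by_cases h3 : P.q X s = 0
  · rw [h3, zero_mul]
    exact hf s hs
  · rw [mul_div_cancel₀ _ h3]

theorem exists_ne : ∃ ω, P.p ω ≠ 0 := by
  by_contra h
  push Not at h
  have h1 := P.one
  rw [Finset.sum_eq_zero fun ω _ => h ω] at h1
  exact zero_ne_one h1

end basics

theorem gib : GibStmt := by
  intro Ω S _ P X T g hg hX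
  set G := ∑ s ∈ T, g s with hG
  have hGpos : 0 < G := by
    obtain ⟨ω, hω⟩ := exists_ne P
    obtain ⟨h1, h2⟩ := hX ω hω
    exact lt_of_lt_of_le h2 (Finset.single_le_sum (fun s hs => hg s hs) h1)
  have hlhs : P.H X + P.E (fun ω => Real.log (g (X ω))) =
      ∑ ω, P.p ω * (Real.log (g (X ω)) - Real.log (P.q X (X ω))) := by
    unfold Law.H Law.E
    rw [neg_add_eq_sub, ← Finset.sum_sub_distrib]
    refine Finset.sum_congr rfl fun ω _ => ?_
    ring
  have h1 : ∀ ω, P.p ω * (Real.log (g (X ω)) - Real.log (P.q X (X ω))) ≤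
      P.p ω * (g (X ω) / P.q X (X ω)) / G - P.p ω + P.p ω * Real.log G := by
    intro ω
    by_cases h : P.p ω = 0
    · rw [h]
      simp
    · obtain ⟨_, h3⟩ := hX ω h
      have h4 := q_pos P X h
      have h5 : 0 < g (X ω) / P.q X (X ω) / G := div_pos (div_pos h3 h4) hGpos
      have h6 := Real.log_le_sub_one_of_pos h5
      rw [Real.log_div (div_pos h3 h4).ne' hGpos.ne', Real.log_div h3.ne' h4.ne'] at h6
      have h7 := mul_le_mul_of_nonneg_left h6 (P.nn ω)
      have h8 : P.p ω * (g (X ω) / P.q X (X ω) / G - 1) =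
          P.p ω * (g (X ω) / P.q X (X ω)) / G - P.p ω := by ring
      rw [h8] at h7
      linarith
  have h2 : ∑ ω, P.p ω * (g (X ω) / P.q X (X ω)) ≤ G :=
    sum_group P X T g hg fun ω h => (hX ω h).1
  rw [hlhs]
  refine (Finset.sum_le_sum fun ω _ => h1 ω).trans ?_
  rw [Finset.sum_add_distrib, Finset.sum_sub_distrib, ← Finset.sum_div, ← Finset.sum_mul, P.one,
    one_mul]
  have h3 : (∑ ω, P.p ω * (g (X ω) / P.q X (X ω))) / G ≤ 1 := by
    rw [div_le_one hGpos]
    exact h2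
  linarith

theorem sum_q_le {Ω U : Type} [Fintype Ω] (P : Law Ω) (Y : Ω → U) (T : Finset U) :
    ∑ u ∈ T, P.q Y u ≤ 1 := by
  classical
  unfold Law.q
  rw [Finset.sum_comm, ← P.one]
  refine Finset.sum_le_sum fun ω _ => ?_
  rw [Finset.sum_ite_eq]
  split_ifs
  · exact le_rfl
  · exact P.nn ω

theorem gic_of_gib (hgib : GibStmt) : GicStmt := by
  classical
  intro Ω S U _ P X Y T g hg hX
  set G : U → ℝ := fun u => ∑ s ∈ T u, g u s with hG
  have hG0 : ∀ u, 0 ≤ G u := fun u => Finset.sum_nonneg fun s hs => hg u s hs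
  have hGpos : ∀ ω, P.p ω ≠ 0 → 0 < G (Y ω) := by
    intro ω hω
    obtain ⟨h1, h2⟩ := hX ω hω
    exact lt_of_lt_of_le h2 (Finset.single_le_sum (fun s hs => hg (Y ω) s hs) h1)
  let U0 : Finset U := Finset.univ.image Y
  let R : Finset (S × U) := U0.biUnion fun u => (T u) ×ˢ {u}
  have hR : ∀ z : S × U, z ∈ R ↔ z.2 ∈ U0 ∧ z.1 ∈ T z.2 := by
    rintro ⟨s, u⟩
    simp only [R, Finset.mem_biUnion, Finset.mem_product, Finset.mem_singleton]
    constructor
    · rintro ⟨u', h1, h2, rfl⟩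
      exact ⟨h1, h2⟩
    · rintro ⟨h1, h2⟩
      exact ⟨u, h1, h2, rfl⟩
  let w : S × U → ℝ := fun z => P.q Y z.2 * (g z.2 z.1 / G z.2)
  have hw : ∀ z ∈ R, 0 ≤ w z := by
    intro z hz
    exact mul_nonneg (q_nonneg P Y z.2) (div_nonneg (hg z.2 z.1 ((hR z).1 hz).2) (hG0 z.2))
  have h1 := hgib Ω (S × U) P (fun ω => (X ω, Y ω)) R w hw (by
    intro ω hω
    refine ⟨(hR _).2 ⟨Finset.mem_image_of_mem Y (Finset.mem_univ ω), (hX ω hω).1⟩, ?_⟩
    exact mul_pos (q_pos P Y hω) (div_pos (hX ω hω).2 (hGpos ω hω)))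
  have h2 : ∑ z ∈ R, w z ≤ 1 := by
    rw [Finset.sum_finset_product_right R U0 T (fun z => hR z)]
    refine le_trans (Finset.sum_le_sum fun u _ => ?_) (sum_q_le P Y U0)
    have h3 : ∑ s ∈ T u, w (s, u) = P.q Y u * (G u / G u) := by
      simp only [w]
      rw [← Finset.mul_sum, ← Finset.sum_div]
    rw [h3]
    by_cases h4 : G u = 0
    · rw [h4, div_zero, mul_zero]
      exact q_nonneg P Y u
    · rw [div_self h4, mul_one]
  have h3 : Real.log (∑ z ∈ R, w z) ≤ 0 :=
    Real.log_nonpos (Finset.sum_nonneg hw) h2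
  have h4 : P.E (fun ω => Real.log (w (X ω, Y ω))) =
      -P.H Y + P.E (fun ω => Real.log (g (Y ω) (X ω))) - P.E (fun ω => Real.log (G (Y ω))) := by
    unfold Law.H Law.E
    rw [neg_neg, ← Finset.sum_add_distrib, ← Finset.sum_sub_distrib]
    refine Finset.sum_congr rfl fun ω _ => ?_
    by_cases h : P.p ω = 0
    · rw [h]
      simp
    · simp only [w]
      rw [Real.log_mul (q_pos P Y h).ne' (div_pos (hX ω h).2 (hGpos ω h)).ne',
        Real.log_div (hX ω h).2.ne' (hGpos ω h).ne']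
      ring
  unfold Law.C
  rw [h4] at h1
  linarith

theorem gic : GicStmt := gic_of_gib gib

theorem uni : UniStmt := by
  classical
  intro Ω _ T hT
  have hc : (T.card : ℝ) ≠ 0 := by exact_mod_cast hT.card_pos.ne'
  let P : Law Ω :=
    { p := fun ω => if ω ∈ T then (T.card : ℝ)⁻¹ else 0
      nn := fun ω => by
        split_ifs
        · positivity
        · exact le_rfl
      one := by
        rw [Finset.sum_ite_mem, Finset.univ_inter, Finset.sum_const, nsmul_eq_mul,
          mul_inv_cancel₀ hc] }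
  have hp : ∀ ω, P.p ω = if ω ∈ T then (T.card : ℝ)⁻¹ else 0 := fun ω => rfl
  refine ⟨P, fun ω h => ?_, ?_⟩
  · by_contra h1
    exact h (by rw [hp, if_neg h1])
  · have hq : ∀ ω, P.q (fun ω => ω) ω = P.p ω := by
      intro ω
      unfold Law.q
      rw [Finset.sum_ite_eq' Finset.univ ω P.p, if_pos (Finset.mem_univ ω)]
    unfold Law.H
    have h1 : ∀ ω, P.p ω * Real.log (P.q (fun ω => ω) ω) = -(P.p ω * Real.log T.card) := by
      intro ω
      rw [hq, hp]
      split_ifs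
      · rw [Real.log_inv]
        ring
      · simp
    rw [Finset.sum_congr rfl fun ω _ => h1 ω, Finset.sum_neg_distrib, neg_neg, ← Finset.sum_mul,
      P.one, one_mul]

end Pool.Agent.TF.H27
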